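import Pool.Agent.H7.TRI.Stmts

/-! Board `tri`, row ECA. -/

open Finset

namespace Pool.TRI

theorem ECA_thm (hPAR : PARStmt) (hPZS : PZSStmt) (hPZI : PZIStmt) (hJVX : JVXStmt)
    (hRCH : RCHStmt) (hTWN : TWNStmt) : ECAStmt := by
  intro V _ _ G d m hy C hC
  obtain ⟨p1, p2, p3, p4, p5, p6⟩ := hPAR V G d m hy C hC
  obtain ⟨r1, r2, r3, r4, r5, r6, r7, r8⟩ := hRCH V G d m hy C hC
  have hT := hTWN V G d m hy C hC
  have hs' : ((SS G C).card : ℤ) = sg G C + 1 := by unfold sg; ring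
  have hx' : ((XX G C).card : ℤ) = xx G C := rfl
  have hsx : sg G C + xx G C = (d : ℤ) := by
    have : ((SS G C).card : ℤ) + ((XX G C).card : ℤ) = (d : ℤ) + 1 := by exact_mod_cast r2
    linarith
  have hs1 : 1 ≤ sg G C := by
    have : (2 : ℤ) ≤ ((SS G C).card : ℤ) := by exact_mod_cast r3
    linarith
  have hx2 : 2 ≤ xx G C := by
    have : (2 : ℤ) ≤ ((XX G C).card : ℤ) := by exact_mod_cast r4
    linarith
  have hp3 : xx G C = ((Iso G C).card : ℤ) + ((Lf G C).card : ℤ) + ((Jc G C).card : ℤ) := by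
    rw [← hx']
    exact_mod_cast p3
  generalize hsd : sg G C = s at *
  generalize hxd : xx G C = x at *
  -- the twins
  have hX : ∑ w ∈ XX G C, (df G C w : ℤ)
      = ((Iso G C).card : ℤ) + ((Lf G C).card : ℤ) + ∑ w ∈ Jc G C, (df G C w : ℤ) := by
    rw [p2 (fun w => (df G C w : ℤ))]
    have e1 : ∑ w ∈ Iso G C, (df G C w : ℤ) = ((Iso G C).card : ℤ) := by
      rw [sum_congr rfl (g := fun _ => (1 : ℤ)) (fun w hw => by
        rw [(mem_Iso.1 hw).2.1]; simp)]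
      simp
    have e2 : ∑ w ∈ Lf G C, (df G C w : ℤ) = ((Lf G C).card : ℤ) := by
      rw [sum_congr rfl (g := fun _ => (1 : ℤ)) (fun w hw => by
        rw [(mem_Lf.1 hw).2.1]; simp)]
      simp
    rw [e1, e2]
  have hSS : ∑ w ∈ SS G C, (ex G d w - pay G d w)
      = (s + 1) * (∑ w ∈ Jc G C, (df G C w : ℤ) - ((Jc G C).card : ℤ) - s) := by
    rw [sum_congr rfl (g := fun _ => ∑ w ∈ XX G C, (df G C w : ℤ) - (d : ℤ)) (fun w hw => by
      rw [(r5 w hw).2.2, hPZS V G d m hy C hC w hw, sub_zero])]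
    rw [sum_const, nsmul_eq_mul, hs', hX]
    have : (d : ℤ) = s + (((Iso G C).card : ℤ) + ((Lf G C).card : ℤ) + ((Jc G C).card : ℤ)) := by
      linarith
    rw [this]
    ring
  -- isolated pairs
  have hIso : ((Iso G C).card : ℤ) * Tt G d C
      ≤ ∑ w ∈ Iso G C, (ex G d w - pay G d w) + ∑ w ∈ Iso G C, lk G d C w := by
    rw [← sum_add_distrib, ← nsmul_eq_mul, ← sum_const]
    refine sum_le_sum fun w hw => ?_
    rw [hPZI V G d m hy C hC w (p4 hw) (mem_Iso.1 hw).2.1, sub_zero]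
    exact le_ex_add_lk d C w
  -- leaves
  have hLf : ((Lf G C).card : ℤ) * s - ∑ w ∈ Lf G C, (tw G d C w : ℤ)
      ≤ ∑ w ∈ Lf G C, (ex G d w - pay G d w) := by
    rw [← nsmul_eq_mul, ← sum_const, ← sum_sub_distrib]
    refine sum_le_sum fun w hw => ?_
    have h := hJVX V G d m hy C hC w (p5 hw)
    rw [(mem_Lf.1 hw).2.1, hsd, hxd] at h
    have hmu : mu s x ((1 : ℕ) : ℤ) = 0 := by
      unfold mu
      have e1 : max (0 : ℤ) (3 * ((1 : ℕ) : ℤ) - x - 1) = 0 := by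
        apply max_eq_left
        push_cast
        linarith
      rw [e1]
      exact min_eq_right (by linarith)
    rw [hmu] at h
    push_cast at h
    linarith
  -- the others
  have hJc : ∑ w ∈ Jc G C, ((s + 1) * ((df G C w : ℤ) - 1)
        + (df G C w : ℤ) * (s - mu s x (df G C w : ℤ))) - ∑ w ∈ Jc G C, (tw G d C w : ℤ)
      ≤ ∑ w ∈ Jc G C, (ex G d w - pay G d w) := by
    rw [← sum_sub_distrib]
    refine sum_le_sum fun w hw => ?_
    have h := hJVX V G d m hy C hC w (p6 hw)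
    rw [hsd, hxd] at h
    exact h
  have hbk : ∑ z ∈ Jc G C, bk s x (df G C z : ℤ)
      = (s + 1) * (∑ w ∈ Jc G C, (df G C w : ℤ) - ((Jc G C).card : ℤ))
        + ∑ w ∈ Jc G C, ((s + 1) * ((df G C w : ℤ) - 1)
        + (df G C w : ℤ) * (s - mu s x (df G C w : ℤ)))
        - ∑ z ∈ Jc G C, (df G C z : ℤ) * ((df G C z : ℤ) - 1) := by
    have e : ((Jc G C).card : ℤ) = ∑ w ∈ Jc G C, (1 : ℤ) := by simp
    rw [e, ← sum_sub_distrib, mul_sum, ← sum_add_distrib, ← sum_sub_distrib]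
    refine sum_congr rfl fun w _ => ?_
    unfold bk
    ring
  rw [p1 (fun w => ex G d w - pay G d w), hbk]
  nlinarith [hSS, hIso, hLf, hJc, hT]

end Pool.TRI
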