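import Pool.Agent.H7.TRI.Stmts

/-! Board `tri`, row ECS. -/

open Finset

namespace Pool.TRI

theorem ECS_thm (hECA : ECAStmt) (hAR1 : AR1Stmt) (hAR2 : AR2Stmt) (hLEA : LEAStmt)
    (hCOV : COVStmt) (hBK1 : BK1Stmt) (hBK2 : BK2Stmt) (hRCH : RCHStmt) (hPAR : PARStmt) :
    ECSStmt := by
  intro V _ _ G d m hy C hC
  obtain ⟨p1, p2, p3, p4, p5, p6⟩ := hPAR V G d m hy C hC
  obtain ⟨r1, r2, r3, r4, r5, r6, r7, r8⟩ := hRCH V G d m hy C hC
  have hE := hECA V G d m hy C hC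
  obtain ⟨I, c1, c2⟩ := hCOV V G d m hy C hC
  obtain ⟨l1, l2, l3⟩ := hLEA V G C
  have hs' : ((SS G C).card : ℤ) = sg G C + 1 := by unfold sg; ring
  have hx' : ((XX G C).card : ℤ) = xx G C := rfl
  have hsx : sg G C + xx G C = (d : ℤ) := by
    have : ((SS G C).card : ℤ) + ((XX G C).card : ℤ) = (d : ℤ) + 1 := by exact_mod_cast r2
    linarith
  have hs1 : 1 ≤ sg G C := by
    have : (2 : ℤ) ≤ ((SS G C).card : ℤ) := by exact_mod_cast r3
    linarith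
  have hx2 : 2 ≤ xx G C := by
    have : (2 : ℤ) ≤ ((XX G C).card : ℤ) := by exact_mod_cast r4
    linarith
  have hk : ∀ z ∈ Jc G C, (2 : ℤ) ≤ (df G C z : ℤ) ∧ (df G C z : ℤ) ≤ sg G C := by
    intro z hz
    constructor
    · exact_mod_cast (mem_Jc.1 hz).2
    · have : ((df G C z : ℤ)) + 1 ≤ ((SS G C).card : ℤ) := by exact_mod_cast r8 z (p6 hz)
      linarith
  have hp3 : xx G C = ((Iso G C).card : ℤ) + ((Lf G C).card : ℤ)
      + (((J2 G C).card : ℤ) + ((Jp G C).card : ℤ) + ((J3 G C).card : ℤ)) := by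
    rw [← hx']
    have : ((XX G C).card : ℤ)
        = ((Iso G C).card : ℤ) + ((Lf G C).card : ℤ) + ((Jc G C).card : ℤ) := by
      exact_mod_cast p3
    have h2 : ((Jc G C).card : ℤ)
        = ((J2 G C).card : ℤ) + ((Jp G C).card : ℤ) + ((J3 G C).card : ℤ) := by
      exact_mod_cast l3
    linarith
  have hd18 : (18 : ℤ) ≤ (d : ℤ) := by exact_mod_cast hy.d18
  have hm1 : (1 : ℤ) ≤ (m : ℤ) := by exact_mod_cast hy.m1
  have hc1 : 2 * (m : ℤ) + 2 * (I : ℤ) ≤ ((Iso G C).card : ℤ)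
      + 2 * (((J2 G C).card : ℤ) + ((Jp G C).card : ℤ) + ((J3 G C).card : ℤ)) := by
    have h2 : ((Jc G C).card : ℤ)
        = ((J2 G C).card : ℤ) + ((Jp G C).card : ℤ) + ((J3 G C).card : ℤ) := by
      exact_mod_cast l3
    rw [← h2]
    exact_mod_cast c1
  have hc2 : ((J2 G C).card : ℤ) ≤ 3 * (I : ℤ) := by exact_mod_cast c2
  have hl1 : ((Jp G C).card : ℤ) ≤ ((Lf G C).card : ℤ) := by exact_mod_cast l1
  have hmem2 : ∀ z ∈ J2 G C, z ∈ Jc G C ∧ (df G C z : ℤ) = 2 := fun z hz =>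
    ⟨(mem_J2.1 hz).1, by exact_mod_cast (mem_J2.1 hz).2.1⟩
  have hmemp : ∀ z ∈ Jp G C, z ∈ Jc G C ∧ (df G C z : ℤ) = 2 := fun z hz =>
    ⟨(mem_Jp.1 hz).1, by exact_mod_cast (mem_Jp.1 hz).2.1⟩
  have hmem3 : ∀ z ∈ J3 G C, z ∈ Jc G C ∧ (3 : ℤ) ≤ (df G C z : ℤ) := fun z hz =>
    ⟨(mem_J3.1 hz).1, by exact_mod_cast (mem_J3.1 hz).2⟩
  have hlow : ∀ (S : Finset V) (c : ℤ), (∀ z ∈ S, c ≤ bk (sg G C) (xx G C) (df G C z : ℤ)) →
      c * (S.card : ℤ) ≤ ∑ z ∈ S, bk (sg G C) (xx G C) (df G C z : ℤ) := by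
    intro S c h
    have := sum_le_sum h
    rw [sum_const, nsmul_eq_mul] at this
    linarith
  have hB := l2 (fun z => bk (sg G C) (xx G C) (df G C z : ℤ))
  have hTt : Tt G d C = min (2 * sg G C) ((d : ℤ) + xx G C - 4) := rfl
  rw [hTt] at hE
  refine le_trans ?_ hE
  rcases le_or_gt ((d : ℤ) + 4) (3 * xx G C) with hc | hc
  · have b := fun k => hBK1 (d : ℤ) (sg G C) (xx G C) k hd18 hsx hc
    have q2 := hlow (J2 G C) (4 * sg G C) fun z hz =>
      (b _ (hk z (hmem2 z hz).1).1 (hk z (hmem2 z hz).1).2).1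
    have qp := hlow (Jp G C) (4 * sg G C) fun z hz =>
      (b _ (hk z (hmemp z hz).1).1 (hk z (hmemp z hz).1).2).1
    have q3 := hlow (J3 G C) (5 * sg G C) fun z hz =>
      (b _ (hk z (hmem3 z hz).1).1 (hk z (hmem3 z hz).1).2).2 (hmem3 z hz).2
    exact hAR1 d m (sg G C) (xx G C) (Iso G C).card (Lf G C).card (J2 G C).card (Jp G C).card
      (J3 G C).card I _ hd18 hm1 hsx hs1 hx2 (by positivity) (by positivity) (by positivity)
      (by positivity) (by positivity) (by positivity) hc hp3 hc1 hc2 hl1 (by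
        rw [hB]
        linarith)
  · have hc' : 3 * xx G C ≤ (d : ℤ) + 3 := by linarith
    have b := fun k => hBK2 (d : ℤ) (sg G C) (xx G C) k hd18 hsx hc' hx2
    have q2 := hlow (J2 G C) (4 * sg G C - 2 * max 0 (5 - xx G C)) fun z hz =>
      (b _ (hk z (hmem2 z hz).1).1 (hk z (hmem2 z hz).1).2).1 (hmem2 z hz).2
    have qp := hlow (Jp G C) (4 * sg G C - 2 * max 0 (5 - xx G C)) fun z hz =>
      (b _ (hk z (hmemp z hz).1).1 (hk z (hmemp z hz).1).2).1 (hmemp z hz).2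
    have q3 := hlow (J3 G C) (4 * (d : ℤ) + xx G C - 7) fun z hz =>
      (b _ (hk z (hmem3 z hz).1).1 (hk z (hmem3 z hz).1).2).2 (hmem3 z hz).2
    exact hAR2 d m (sg G C) (xx G C) (Iso G C).card (Lf G C).card (J2 G C).card (Jp G C).card
      (J3 G C).card I _ hd18 hm1 hsx hs1 hx2 (by positivity) (by positivity) (by positivity)
      (by positivity) (by positivity) (by positivity) hc' hp3 hc1 hc2 hl1 (by
        rw [hB]
        linarith)

end Pool.TRI
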